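import Pool.Agent.TH728.Obs.Minor

/-!
# Countable obstructions to having a pp-construction from `𝔓₂`

There is a countable family of finite structures with finite signatures, none of which has a
pp-construction from `𝔓₂`, such that every structure with a finite domain (and a finite or infinite
signature) that has no pp-construction from `𝔓₂` pp-constructs a member of the family.
-/

set_option autoImplicit false

namespace Pool.Agent.Results.MP_8f9fef_lc.CountableObstructions

open Pool.Agent.TH728.Obs

/-- codes of structures with domain `{0, …, n - 1}` and finitely many relations -/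
abbrev Code : Type := Σ n : ℕ, Σ k : ℕ, Σ ar : Fin k → ℕ, ∀ s : Fin k, Set (Fin (ar s) → Fin n)

/-- the structure with a given code -/
def str (c : Code) : Str where
  dom := Fin c.1
  finDom := inferInstance
  sym := Fin c.2.1
  ar := c.2.2.1
  rel s x := x ∈ c.2.2.2 s

theorem exists_code (B : Str) (T : Set B.sym) [Finite (B.reduct T).sym] :
    ∃ c : Code, PPConstructs B (str c) ∧ MinorMap (str c) (B.reduct T) ∧
      (Nonempty B.dom → Nonempty (str c).dom) ∧
      (Nonempty (str c).dom → Nonempty (B.reduct T).dom) := by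
  obtain ⟨n, ⟨e⟩⟩ := Finite.exists_equiv_fin B.dom
  obtain ⟨k, ⟨f⟩⟩ := Finite.exists_equiv_fin (B.reduct T).sym
  refine ⟨⟨n, k, fun j => B.ar (f.symm j).1,
    fun j => {x | B.rel (f.symm j).1 (fun i => e.symm (x i))}⟩, ?_, ?_, ?_, ?_⟩
  · let idx : ∀ k : ℕ, Fin k → Fin (k * 1) := fun k i => finProdFinEquiv (i, 0)
    refine ⟨1, le_refl _, fun s => .rel (f.symm s).1 (idx _), ⟨fun x => e (x 0), ?_⟩,
      ⟨fun b _ => e.symm b, ?_⟩⟩
    · intro s x hx
      change B.rel (f.symm s).1 (fun k => concat x (idx _ k)) at hx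
      change B.rel (f.symm s).1 (fun k => e.symm (e (x k 0)))
      simpa [concat, idx] using hx
    · intro s x hx
      change B.rel (f.symm s).1 (fun k => concat (fun i _ => e.symm (x i)) (idx _ k))
      change B.rel (f.symm s).1 (fun k => e.symm (x k)) at hx
      simpa [concat, idx] using hx
  · refine ⟨fun m g => ⟨fun x => e.symm (g.1 (fun i => e (x i))), ?_⟩, fun n m π g => rfl⟩
    intro s x hx
    obtain ⟨j, rfl⟩ := f.symm.surjective s
    have h1 := g.2 j (fun i a => e (x i a)) (fun i => by
      change B.rel (f.symm j).1 (fun a => e.symm (e (x i a)))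
      have h2 : B.rel (f.symm j).1 (x i) := hx i
      simpa using h2)
    exact h1
  · rintro ⟨b⟩
    exact ⟨e b⟩
  · rintro ⟨b⟩
    exact ⟨e.symm b⟩

/-- the structure `({0, 1}; ≠)` -/
def K2 : Str where
  dom := Fin 2
  finDom := inferInstance
  sym := Fin 1
  ar _ := 2
  rel _ x := x 0 ≠ x 1

/-- conjunction on `{0, 1}` -/
def andF (x : Fin 2 → Fin 2) : Fin 2 := x 0 * x 1

theorem andF_aux (x : Fin 2 → Fin 2 → Fin 2) (hx : ∀ i, x i 0 = 0 ∧ x i 1 = 1) :
    andF (fun i => x i 0) = 0 ∧ andF (fun i => x i 1) = 1 := by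
  change x 0 0 * x 1 0 = 0 ∧ x 0 1 * x 1 1 = 1
  rw [(hx 0).1, (hx 0).2, (hx 1).1, (hx 1).2]
  decide

theorem andF_pol : IsPol P2 (Fin 2) andF := fun _ x hx => andF_aux x hx

theorem andF_comm (x : Fin 2 → Fin 2) :
    andF (fun i => x ((![1, 0] : Fin 2 → Fin 2) i)) = andF x :=
  mul_comm (x 1) (x 0)

/-- two tuples of `K2` -/
def tup : Fin 2 → Fin 2 → Fin 2 := ![![0, 1], ![1, 0]]

theorem tup_ne : ∀ i, tup i 0 ≠ tup i 1 := by decide

theorem not_P2_K2 : ¬ PPConstructs P2 K2 := by
  intro h
  obtain ⟨ξ, hξ⟩ := minorMap_of_pp _ _ h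
  let a : Pol P2 2 := ⟨andF, andF_pol⟩
  have ha : a.minor ![1, 0] = a := by
    apply Subtype.ext
    funext x
    exact andF_comm x
  have hb : (ξ 2 a).minor ![1, 0] = ξ 2 a := by
    rw [← hξ, ha]
  have hc : ∀ x : Fin 2 → Fin 2, (ξ 2 a).1 (fun i => x (![1, 0] i)) = (ξ 2 a).1 x := fun x =>
    congrFun (congrArg Subtype.val hb) x
  have hd := (ξ 2 a).2 (0 : Fin 1) tup tup_ne
  apply hd
  have h1 : (fun i => tup i 1) = fun i => tup 0 ((![1, 0] : Fin 2 → Fin 2) i) := by decide
  have h2 : (fun i => tup i 0) = tup 0 := by decide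
  change (ξ 2 a).1 (fun i => tup i 0) = (ξ 2 a).1 (fun i => tup i 1)
  rw [h1, h2]
  exact (hc (tup 0)).symm

instance : Nonempty P2.dom := ⟨(0 : Fin 2)⟩

instance : Finite P2.sym := inferInstanceAs (Finite Unit)

theorem pp_P2_trans {B C : Str} [Nonempty C.dom] (h₁ : PPConstructs P2 B) (h₂ : PPConstructs B C) :
    PPConstructs P2 C :=
  pp_of_minorMap _ _ ((minorMap_of_pp _ _ h₁).trans (minorMap_of_pp _ _ h₂))

theorem nonempty_of_pp {A B : Str} (h : PPConstructs A B) (hA : Nonempty A.dom) :
    Nonempty B.dom := by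
  obtain ⟨d, -, ψ, ⟨f, -⟩, -⟩ := h
  exact ⟨f (fun _ => hA.some)⟩

/-- a structure without a pp-construction from `𝔓₂` pp-constructs a coded one -/
theorem exists_obstruction (B : Str) (h : ¬ PPConstructs P2 B) :
    ∃ c : Code, ¬ PPConstructs P2 (str c) ∧ PPConstructs B (str c) ∧
      (Nonempty B.dom → Nonempty (str c).dom) := by
  classical
  -- a finite reduct without a pp-construction from `𝔓₂`
  have key : ∃ T : Set B.sym, T.Finite ∧ ¬ PPConstructs P2 (B.reduct T) := by
    by_cases hB : Nonempty B.dom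
    · by_contra hcon
      push Not at hcon
      exact h (pp_of_finite_reducts P2 B (fun T hT => minorMap_of_pp _ _ (hcon T hT)))
    · refine ⟨∅, Set.finite_empty, fun h' => hB ?_⟩
      have h'' : Nonempty (B.reduct ∅).dom := nonempty_of_pp h' inferInstance
      exact h''
  obtain ⟨T, hT, hT'⟩ := key
  have : Finite (B.reduct T).sym := hT.to_subtype
  obtain ⟨c, h1, h2, h3, h3'⟩ := exists_code B T
  refine ⟨c, ?_, h1, h3⟩
  intro h4
  apply hT'
  have : Nonempty (B.reduct T).dom := h3' (nonempty_of_pp h4 inferInstance)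
  exact pp_of_minorMap _ _ ((minorMap_of_pp _ _ h4).trans h2)

/-- **Theorem.** There is a countable family `C 0, C 1, …` of finite structures with finite
signatures such that a finite structure `B` has no pp-construction from `𝔓₂` if and only if some
`C i` has a pp-construction from `B`. This even holds for all structures `B` with a finite domain
and an arbitrary, possibly infinite, signature. The first part is about structures with nonempty
domains, the second part is about structures whose domain may also be empty. -/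
theorem result :
    (∃ C : ℕ → Str, (∀ i, Finite (C i).sym ∧ Nonempty (C i).dom) ∧
      ∀ B : Str, Nonempty B.dom → (¬ PPConstructs P2 B ↔ ∃ i, PPConstructs B (C i))) ∧
    (∃ C : ℕ → Str, (∀ i, Finite (C i).sym) ∧
      ∀ B : Str, ¬ PPConstructs P2 B ↔ ∃ i, PPConstructs B (C i)) := by
  classical
  constructor
  · let I : Type := {c : Code // Nonempty (str c).dom ∧ ¬ PPConstructs P2 (str c)}
    have hI : Nonempty I := by
      obtain ⟨c, h1, -, h3⟩ := exists_obstruction K2 not_P2_K2
      exact ⟨⟨c, h3 ⟨(0 : Fin 2)⟩, h1⟩⟩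
    have hc : Countable I := Subtype.countable
    obtain ⟨e, he⟩ := exists_surjective_nat I
    refine ⟨fun i => str (e i).1, fun i => ⟨inferInstanceAs (Finite (Fin _)), (e i).2.1⟩, ?_⟩
    intro B hB
    constructor
    · intro h
      obtain ⟨c, h1, h2, h3⟩ := exists_obstruction B h
      obtain ⟨i, hi⟩ := he ⟨c, h3 hB, h1⟩
      refine ⟨i, ?_⟩
      change PPConstructs B (str (e i).1)
      rw [hi]
      exact h2
    · rintro ⟨i, hi⟩ h
      have := (e i).2.1
      exact (e i).2.2 (pp_P2_trans h hi)
  · let I : Type := {c : Code // ¬ PPConstructs P2 (str c)}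
    have hI : Nonempty I := by
      obtain ⟨c, h1, -, h3⟩ := exists_obstruction K2 not_P2_K2
      exact ⟨⟨c, h1⟩⟩
    have hc : Countable I := Subtype.countable
    obtain ⟨e, he⟩ := exists_surjective_nat I
    refine ⟨fun i => str (e i).1, fun i => inferInstanceAs (Finite (Fin _)), ?_⟩
    intro B
    constructor
    · intro h
      obtain ⟨c, h1, h2, h3⟩ := exists_obstruction B h
      obtain ⟨i, hi⟩ := he ⟨c, h1⟩
      refine ⟨i, ?_⟩
      change PPConstructs B (str (e i).1)
      rw [hi]
      exact h2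
    · rintro ⟨i, hi⟩ h
      have h5 : Nonempty (str (e i).1).dom :=
        nonempty_of_pp hi (nonempty_of_pp h inferInstance)
      exact (e i).2 (pp_P2_trans h hi)

end Pool.Agent.Results.MP_8f9fef_lc.CountableObstructions
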